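import Pool.Agent.H14.ES.Main
import Pool.Agent.H4.ES.SPL

/-!
# Crew ES, part COD: coding of the sites into `ℕ`
-/

set_option autoImplicit false

namespace H12.ES

open MeasureTheory Set H14.ES

/-! ### integers -/

/-- the coding of the integers -/
def ic : ℤ ≃ ℕ where
  toFun z := if 0 ≤ z then 2 * z.toNat else 2 * (-z - 1).toNat + 1
  invFun m := if m % 2 = 0 then ((m / 2 : ℕ) : ℤ) else -((m / 2 : ℕ) : ℤ) - 1
  left_inv z := by
    simp only
    split_ifs <;> omega
  right_inv m := by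
    simp only
    split_ifs <;> omega

lemma ic_def (z : ℤ) : ic z = if 0 ≤ z then 2 * z.toNat else 2 * (-z - 1).toNat + 1 := rfl

def zsucc (m : ℕ) : ℕ := if m % 2 = 0 then m + 2 else if m = 1 then 0 else m - 2
def zpred (m : ℕ) : ℕ := if m % 2 = 0 then (if m = 0 then 1 else m - 2) else m + 2
def zneg (m : ℕ) : ℕ := if m = 0 then 0 else if m % 2 = 0 then m - 1 else m + 1

lemma ic_succ (z : ℤ) : ic (z + 1) = zsucc (ic z) := by
  simp only [ic_def, zsucc]
  split_ifs <;> omega

lemma ic_pred (z : ℤ) : ic (z - 1) = zpred (ic z) := by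
  simp only [ic_def, zpred]
  split_ifs <;> omega

lemma ic_nonneg (z : ℤ) (h : 0 ≤ z) : ic z = 2 * z.toNat := by
  rw [ic_def, if_pos h]

lemma ic_lt (z : ℤ) (h : z < 0) : ic z = 2 * (-z - 1).toNat + 1 := by
  rw [ic_def, if_neg (by omega)]

lemma ic_eq_zero' : ic 0 = 0 := rfl

lemma ic_neg (z : ℤ) : ic (-z) = zneg (ic z) := by
  rcases lt_trichotomy z 0 with h | h | h
  · rw [ic_nonneg (-z) (by omega), ic_lt z h]
    unfold zneg
    rw [if_neg (by omega), if_neg (by omega)]
    omega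
  · subst h
    rw [neg_zero, (ic_eq_zero' : ic 0 = 0)]
    rfl
  · rw [ic_lt (-z) (by omega), ic_nonneg z (by omega)]
    unfold zneg
    split_ifs <;> omega

lemma ic_one_sub (z : ℤ) : ic (1 - z) = zsucc (zneg (ic z)) := by
  rw [← ic_neg, ← ic_succ]
  congr 1
  ring

lemma ic_eq_zero (z : ℤ) : ic z = 0 ↔ z = 0 := by
  rw [ic_def]
  by_cases h1 : 0 ≤ z <;> simp only [h1, if_true, if_false] <;> omega

lemma ic_eq (z : ℤ) (n : ℕ) : ic z = 2 * (n + 1) ↔ z = (n : ℤ) + 1 := by
  rw [ic_def]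
  by_cases h1 : 0 ≤ z <;> simp only [h1, if_true, if_false] <;> omega

lemma pr_mod2 : Primrec fun m : ℕ => m % 2 := Primrec.nat_mod.comp Primrec.id (Primrec.const 2)

lemma pr_zsucc : Primrec zsucc := by
  unfold zsucc
  exact Primrec.ite (Primrec.eq.comp pr_mod2 (Primrec.const 0))
    (Primrec.nat_add.comp Primrec.id (Primrec.const 2))
    (Primrec.ite (Primrec.eq.comp Primrec.id (Primrec.const 1)) (Primrec.const 0)
      (Primrec.nat_sub.comp Primrec.id (Primrec.const 2)))

lemma pr_zpred : Primrec zpred := by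
  unfold zpred
  exact Primrec.ite (Primrec.eq.comp pr_mod2 (Primrec.const 0))
    (Primrec.ite (Primrec.eq.comp Primrec.id (Primrec.const 0)) (Primrec.const 1)
      (Primrec.nat_sub.comp Primrec.id (Primrec.const 2)))
    (Primrec.nat_add.comp Primrec.id (Primrec.const 2))

lemma pr_zneg : Primrec zneg := by
  unfold zneg
  exact Primrec.ite (Primrec.eq.comp Primrec.id (Primrec.const 0)) (Primrec.const 0)
    (Primrec.ite (Primrec.eq.comp pr_mod2 (Primrec.const 0))
      (Primrec.nat_sub.comp Primrec.id (Primrec.const 1))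
      (Primrec.nat_add.comp Primrec.id (Primrec.const 1)))

/-! ### reduced words -/

abbrev Ltr : Type := Bool × Bool

def op (a : Ltr) (l : List Ltr) : List Ltr :=
  List.casesOn l [a] fun h t => if a.1 = h.1 ∧ a.2 = !h.2 then t else a :: h :: t

def red (l : List Ltr) : List Ltr := l.foldr (fun b s => op b s) []

lemma red_eq (l : List Ltr) : red l = FreeGroup.reduce l := by
  induction l with
  | nil => rfl
  | cons a l ih =>
    rw [FreeGroup.reduce.cons, ← ih]
    rfl

lemma pr_op : Primrec₂ op := by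
  unfold op
  have hf : Primrec fun p : Ltr × List Ltr => p.2 := Primrec.snd
  have hg : Primrec fun p : Ltr × List Ltr => [p.1] :=
    Primrec.list_cons.comp Primrec.fst (Primrec.const [])
  have hh : Primrec₂ fun (p : Ltr × List Ltr) (q : Ltr × List Ltr) =>
      if p.1.1 = q.1.1 ∧ p.1.2 = !q.1.2 then q.2 else p.1 :: q.1 :: q.2 := by
    refine Primrec.ite (PrimrecPred.and ?_ ?_) ?_ ?_
    · exact Primrec.eq.comp (Primrec.fst.comp (Primrec.fst.comp Primrec.fst))
        (Primrec.fst.comp (Primrec.fst.comp Primrec.snd))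
    · exact Primrec.eq.comp (Primrec.snd.comp (Primrec.fst.comp Primrec.fst))
        (Primrec.not.comp (Primrec.snd.comp (Primrec.fst.comp Primrec.snd)))
    · exact Primrec.snd.comp Primrec.snd
    · exact Primrec.list_cons.comp (Primrec.fst.comp Primrec.fst)
        (Primrec.list_cons.comp (Primrec.fst.comp Primrec.snd) (Primrec.snd.comp Primrec.snd))
  exact Primrec.list_casesOn hf hg hh

lemma pr_red : Primrec red := by
  unfold red
  have h : Primrec₂ fun (_ : List Ltr) (q : Ltr × List Ltr) => op q.1 q.2 :=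
    pr_op.comp (Primrec.fst.comp Primrec.snd) (Primrec.snd.comp Primrec.snd)
  exact Primrec.list_foldr Primrec.id (Primrec.const []) h

lemma toWord_of_mul (s : Bool) (u : FreeGroup Bool) :
    (FreeGroup.of s * u).toWord = op (s, true) u.toWord := by
  rw [FreeGroup.toWord_mul, FreeGroup.toWord_of, List.singleton_append, FreeGroup.reduce.cons,
    FreeGroup.reduce_toWord]
  rfl

lemma toWord_inv_mul (s : Bool) (u : FreeGroup Bool) :
    ((FreeGroup.of s)⁻¹ * u).toWord = op (s, false) u.toWord := by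
  rw [FreeGroup.toWord_mul, FreeGroup.toWord_inv, FreeGroup.toWord_of]
  have : FreeGroup.invRev [(s, true)] = [(s, false)] := rfl
  rw [this, List.singleton_append, FreeGroup.reduce.cons, FreeGroup.reduce_toWord]
  rfl

/-! ### the code -/

abbrev TT : Type := List Ltr × ℕ × ℕ × ℕ

def cd (d : D1) : TT := (d.1.toWord, d.2.1, ic d.2.2.1, ic d.2.2.2)

lemma cd_inj : Function.Injective cd := by
  rintro ⟨u, n, i, y⟩ ⟨u', n', i', y'⟩ h
  simp only [cd, Prod.mk.injEq, EmbeddingLike.apply_eq_iff_eq] at h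
  obtain ⟨h1, h2, h3, h4⟩ := h
  rw [FreeGroup.toWord_injective h1, h2, h3, h4]

def code (d : D1) : ℕ := 3 * Encodable.encode (cd d) + 1

lemma code_inj : Function.Injective code := by
  intro d d' h
  unfold code at h
  exact cd_inj (Encodable.encode_injective (by omega))

def lg (G : TT → ℕ) (k : ℕ) : ℕ :=
  if k % 3 = 1 then
    Option.casesOn (Encodable.decode (k / 3) : Option TT) k
      (fun t => if red t.1 = t.1 ∧ Encodable.encode t = k / 3 then G t else k)
  else k

lemma lg_code (G : TT → ℕ) (d : D1) : lg G (code d) = G (cd d) := by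
  have h1 : code d % 3 = 1 := by unfold code; omega
  have h2 : code d / 3 = Encodable.encode (cd d) := by unfold code; omega
  unfold lg
  rw [if_pos h1, h2, Encodable.encodek]
  simp only [and_true]
  rw [if_pos]
  rw [red_eq]
  exact FreeGroup.reduce_toWord d.1

lemma lg_other (G : TT → ℕ) (k : ℕ) (hk : ∀ d, code d ≠ k) : lg G k = k := by
  unfold lg
  split_ifs with h
  · cases hd : (Encodable.decode (k / 3) : Option TT) with
    | none => rfl
    | some t =>
      simp only
      split_ifs with h1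
      · exfalso
        obtain ⟨h2, h3⟩ := h1
        apply hk (FreeGroup.mk t.1, (t.2.1, ic.symm t.2.2.1, ic.symm t.2.2.2))
        have h4 : cd (FreeGroup.mk t.1, (t.2.1, ic.symm t.2.2.1, ic.symm t.2.2.2)) = t := by
          obtain ⟨l, n, i, y⟩ := t
          simp only [cd, FreeGroup.toWord_mk, Equiv.apply_symm_apply]
          simp only at h2
          rw [← red_eq, h2]
        unfold code
        rw [h4, h3]
        omega
      · rfl
  · rfl

lemma pr_lg {G : TT → ℕ} (hG : Primrec G) : Nat.Primrec (lg G) := by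
  rw [← Primrec.nat_iff]
  unfold lg
  have hdiv : Primrec fun k : ℕ => k / 3 := Primrec.nat_div.comp Primrec.id (Primrec.const 3)
  refine Primrec.ite (Primrec.eq.comp (Primrec.nat_mod.comp Primrec.id (Primrec.const 3))
    (Primrec.const 1)) ?_ Primrec.id
  have h2 : Primrec₂ fun (k : ℕ) (t : TT) =>
      if red t.1 = t.1 ∧ Encodable.encode t = k / 3 then G t else k := by
    refine Primrec.ite (PrimrecPred.and ?_ ?_) (hG.comp Primrec.snd) Primrec.fst
    · exact Primrec.eq.comp (pr_red.comp (Primrec.fst.comp Primrec.snd))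
        (Primrec.fst.comp Primrec.snd)
    · exact Primrec.eq.comp (Primrec.encode.comp Primrec.snd) (hdiv.comp Primrec.fst)
  exact Primrec.option_casesOn (Primrec.decode.comp hdiv) Primrec.id h2

open Classical in
/-- the coding -/
noncomputable def ee (k : ℕ) : (ℕ ⊕ D1) ⊕ ℕ :=
  if k % 3 = 0 then Sum.inl (Sum.inl (k / 3))
  else if h : ∃ d, code d = k then Sum.inl (Sum.inr h.choose) else Sum.inr k

lemma ee_three (n : ℕ) : ee (3 * n) = Sum.inl (Sum.inl n) := by
  unfold ee
  rw [if_pos (by omega)]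
  congr 2
  omega

lemma code_mod (d : D1) : code d % 3 = 1 := by unfold code; omega

lemma ee_code (d : D1) : ee (code d) = Sum.inl (Sum.inr d) := by
  have hex : ∃ d', code d' = code d := ⟨d, rfl⟩
  unfold ee
  rw [if_neg (by rw [code_mod]; norm_num), dif_pos hex]
  congr 2
  exact code_inj hex.choose_spec

lemma ee_other (k : ℕ) (h3 : k % 3 ≠ 0) (hk : ∀ d, code d ≠ k) : ee k = Sum.inr k := by
  unfold ee
  rw [if_neg h3, dif_neg (by push Not; exact hk)]

lemma cases_k (k : ℕ) : (∃ n, k = 3 * n) ∨ (∃ d, k = code d) ∨ (k % 3 ≠ 0 ∧ ∀ d, code d ≠ k) := by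
  by_cases h : k % 3 = 0
  · exact Or.inl ⟨k / 3, by omega⟩
  · by_cases h2 : ∃ d, code d = k
    · obtain ⟨d, hd⟩ := h2
      exact Or.inr (Or.inl ⟨d, hd.symm⟩)
    · push Not at h2
      exact Or.inr (Or.inr ⟨h, h2⟩)

lemma ee_inj : Function.Injective ee := by
  intro k k' h
  rcases cases_k k with ⟨n, rfl⟩ | ⟨d, rfl⟩ | ⟨h3, hk⟩ <;>
  rcases cases_k k' with ⟨n', rfl⟩ | ⟨d', rfl⟩ | ⟨h3', hk'⟩
  · rw [ee_three, ee_three] at h
    simp only [Sum.inl.injEq] at h
    rw [h]
  · rw [ee_three, ee_code] at h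
    simp at h
  · rw [ee_three, ee_other k' h3' hk'] at h
    simp at h
  · rw [ee_code, ee_three] at h
    simp at h
  · rw [ee_code, ee_code] at h
    simp only [Sum.inl.injEq, Sum.inr.injEq] at h
    rw [h]
  · rw [ee_code, ee_other k' h3' hk'] at h
    simp at h
  · rw [ee_other k h3 hk, ee_three] at h
    simp at h
  · rw [ee_other k h3 hk, ee_code] at h
    simp at h
  · rw [ee_other k h3 hk, ee_other k' h3' hk'] at h
    simpa using h

/-! ### general facts -/

abbrev QQ : Type := ((ℕ → Bool) × (D1 → Bool)) × (ℕ → Bool)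

def Tm (P : (ℕ → Bool) → Equiv.Perm D1) (q : QQ) : QQ := ((q.1.1, sh (P q.1.1) q.1.2), q.2)

lemma glu_three (q : QQ) (n : ℕ) : glu ee q (3 * n) = q.1.1 n := by
  simp only [glu, ee_three, Sum.elim_inl]

lemma glu_code (q : QQ) (d : D1) : glu ee q (code d) = q.1.2 d := by
  simp only [glu, ee_code, Sum.elim_inl, Sum.elim_inr]

lemma glu_other (q : QQ) (k : ℕ) (h3 : k % 3 ≠ 0) (hk : ∀ d, code d ≠ k) :
    glu ee q k = q.2 k := by
  simp only [glu, ee_other k h3 hk, Sum.elim_inr]

lemma glu_surj (r : ℕ → Bool) :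
    glu ee ((fun n => r (3 * n), fun d => r (code d)), r) = r := by
  funext k
  rcases cases_k k with ⟨n, rfl⟩ | ⟨d, rfl⟩ | ⟨h3, hk⟩
  · rw [glu_three]
  · rw [glu_code]
  · rw [glu_other _ _ h3 hk]

lemma glu_mp : MeasurePreserving (glu ee) (((mu ℕ).prod (mu D1)).prod (mu ℕ)) (mu ℕ) := by
  have h1 := (H4.ES.elim_mp ℕ D1).prod (MeasurePreserving.id (mu ℕ))
  have h2 := (H4.ES.elim_mp (ℕ ⊕ D1) ℕ).comp h1
  exact (H4.ES.inj_mp ee ee_inj).comp h2

def Rep (P : (ℕ → Bool) → Equiv.Perm D1) : Prop :=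
  ∃ c u v : ℕ → ℕ, Nat.Primrec c ∧ Nat.Primrec u ∧ Nat.Primrec v ∧
    ∀ q, glu ee (Tm P q) = ite3 c u v (glu ee q)

lemma measurable_ite3 (c u v : ℕ → ℕ) : Measurable (ite3 c u v) := by
  rw [measurable_pi_iff]
  intro j
  have h : MeasurableSet {r : ℕ → Bool | r (c j) = true} :=
    (measurable_pi_apply (X := fun _ : ℕ => Bool) (c j)) (measurableSet_singleton true)
  unfold ite3
  exact Measurable.ite h (measurable_pi_apply _) (measurable_pi_apply _)

lemma sh_mp (p : Equiv.Perm D1) : MeasurePreserving (sh p) (mu D1) (mu D1) :=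
  H4.ES.inj_mp (fun d => p⁻¹ d) (p⁻¹).injective

lemma Tm_mp (P : (ℕ → Bool) → Equiv.Perm D1) (hP : Rep P) :
    MeasurePreserving (Tm P) (((mu ℕ).prod (mu D1)).prod (mu ℕ))
      (((mu ℕ).prod (mu D1)).prod (mu ℕ)) := by
  obtain ⟨c, u, v, -, -, -, h⟩ := hP
  have hm : Measurable (Function.uncurry fun (x0 : ℕ → Bool) (x : D1 → Bool) => sh (P x0) x) := by
    rw [measurable_pi_iff]
    intro d
    have h1 : (fun q : (ℕ → Bool) × (D1 → Bool) =>
        Function.uncurry (fun (x0 : ℕ → Bool) (x : D1 → Bool) => sh (P x0) x) q d) =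
        fun q => ite3 c u v (glu ee (q, fun _ => false)) (code d) := by
      funext q
      rw [← h, glu_code]
      rfl
    rw [h1]
    have h2 : Measurable fun q : (ℕ → Bool) × (D1 → Bool) =>
        ite3 c u v (glu ee (q, fun _ => false)) :=
      (measurable_ite3 c u v).comp (glu_mp.measurable.comp
        (measurable_id.prodMk measurable_const))
    exact (measurable_pi_apply (code d)).comp h2
  have h1 : MeasurePreserving (fun q : (ℕ → Bool) × (D1 → Bool) => (id q.1, sh (P q.1) q.2))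
      ((mu ℕ).prod (mu D1)) ((mu ℕ).prod (mu D1)) :=
    (MeasurePreserving.id (mu ℕ)).skew_product hm
      (Filter.Eventually.of_forall fun x0 => (sh_mp (P x0)).map_eq)
  exact h1.prod (MeasurePreserving.id (mu ℕ))

lemma aut_of_rep (P : (ℕ → Bool) → Equiv.Perm D1) (hP : Rep P) (hP' : Rep fun x0 => (P x0)⁻¹) :
    ∃ w, IteAut w ∧ ∀ x0 x u, glu ee ((x0, sh (P x0) x), u) = w (glu ee ((x0, x), u)) := by
  have hT := Tm_mp P hP
  obtain ⟨c, u, v, hc, hu, hv, h⟩ := hP
  obtain ⟨c', u', v', hc', hu', hv', h'⟩ := hP'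
  have hinv1 : ∀ q, Tm (fun x0 => (P x0)⁻¹) (Tm P q) = q := by
    rintro ⟨⟨x0, x⟩, y⟩
    simp only [Tm, Prod.mk.injEq, true_and, and_true]
    funext d
    simp [sh]
  have hinv2 : ∀ q, Tm P (Tm (fun x0 => (P x0)⁻¹) q) = q := by
    rintro ⟨⟨x0, x⟩, y⟩
    simp only [Tm, Prod.mk.injEq, true_and, and_true]
    funext d
    simp [sh]
  refine ⟨ite3 c u v, ⟨?_, c, u, v, c', u', v', hc, hu, hv, hc', hu', hv', rfl, ?_, ?_⟩, ?_⟩
  · refine ⟨measurable_ite3 c u v, ?_⟩
    conv_lhs => rw [← glu_mp.map_eq]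
    rw [Measure.map_map (measurable_ite3 c u v) glu_mp.measurable]
    have h1 : ite3 c u v ∘ glu ee = glu ee ∘ Tm P := by
      funext q
      exact (h q).symm
    rw [h1, ← Measure.map_map glu_mp.measurable hT.measurable, hT.map_eq, glu_mp.map_eq]
  · intro r
    rw [← glu_surj r, ← h, ← h', hinv1]
  · intro r
    rw [← glu_surj r, ← h', ← h, hinv2]
  · intro x0 x y
    exact h ((x0, x), y)

lemma rep_of (P : (ℕ → Bool) → Equiv.Perm D1) (A B : D1 → D1)
    (hPA : ∀ x0 d, (P x0)⁻¹ d = if x0 d.2.1 = true then A d else B d)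
    (FA FB : TT → TT) (hFA : Primrec FA) (hFB : Primrec FB)
    (hA : ∀ d, cd (A d) = FA (cd d)) (hB : ∀ d, cd (B d) = FB (cd d)) : Rep P := by
  refine ⟨lg fun t => 3 * t.2.1, lg fun t => 3 * Encodable.encode (FA t) + 1,
    lg fun t => 3 * Encodable.encode (FB t) + 1, pr_lg ?_, pr_lg ?_, pr_lg ?_, ?_⟩
  · exact Primrec.nat_mul.comp (Primrec.const 3) (Primrec.fst.comp Primrec.snd)
  · exact Primrec.nat_add.comp (Primrec.nat_mul.comp (Primrec.const 3)
      (Primrec.encode.comp hFA)) (Primrec.const 1)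
  · exact Primrec.nat_add.comp (Primrec.nat_mul.comp (Primrec.const 3)
      (Primrec.encode.comp hFB)) (Primrec.const 1)
  · intro q
    funext k
    unfold ite3
    rcases cases_k k with ⟨n, rfl⟩ | ⟨d, rfl⟩ | ⟨h3, hk⟩
    · have hk : ∀ d, code d ≠ 3 * n := fun d h => by
        have := code_mod d
        omega
      rw [lg_other _ _ hk, lg_other _ _ hk, lg_other _ _ hk, ite_self, glu_three, glu_three]
      rfl
    · rw [lg_code, lg_code, lg_code, glu_code, ← hA, ← hB]
      have h1 : (cd d).2.1 = d.2.1 := rfl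
      rw [h1]
      change sh (P q.1.1) q.1.2 d = if glu ee q (3 * d.2.1) = true then glu ee q (code (A d))
        else glu ee q (code (B d))
      rw [glu_three, glu_code, glu_code]
      unfold sh
      rw [hPA]
      split_ifs <;> rfl
    · rw [lg_other _ _ hk, lg_other _ _ hk, lg_other _ _ hk, ite_self, glu_other _ _ h3 hk,
        glu_other _ _ h3 hk]
      rfl

/-! ### the generators -/

lemma rep_rho (s : Bool) : Rep fun _ => rho1 (FreeGroup.of s) := by
  refine rep_of _ (fun d => ((FreeGroup.of s)⁻¹ * d.1, d.2)) (fun d => ((FreeGroup.of s)⁻¹ * d.1, d.2))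
    ?_ (fun t => (op (s, false) t.1, t.2)) (fun t => (op (s, false) t.1, t.2)) ?_ ?_ ?_ ?_
  · intro x0 d
    rw [ite_self]
    rfl
  · exact (pr_op.comp (Primrec.const (s, false)) Primrec.fst).pair Primrec.snd
  · exact (pr_op.comp (Primrec.const (s, false)) Primrec.fst).pair Primrec.snd
  · intro d
    simp only [cd, toWord_inv_mul]
  · intro d
    simp only [cd, toWord_inv_mul]

lemma rep_rho' (s : Bool) : Rep fun _ => (rho1 (FreeGroup.of s))⁻¹ := by
  refine rep_of _ (fun d => (FreeGroup.of s * d.1, d.2)) (fun d => (FreeGroup.of s * d.1, d.2))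
    ?_ (fun t => (op (s, true) t.1, t.2)) (fun t => (op (s, true) t.1, t.2)) ?_ ?_ ?_ ?_
  · intro x0 d
    rw [ite_self, inv_inv]
    rfl
  · exact (pr_op.comp (Primrec.const (s, true)) Primrec.fst).pair Primrec.snd
  · exact (pr_op.comp (Primrec.const (s, true)) Primrec.fst).pair Primrec.snd
  · intro d
    simp only [cd, toWord_of_mul]
  · intro d
    simp only [cd, toWord_of_mul]

lemma piJJ_false (x0 : ℕ → Bool) : piJJ x0 (FreeGroup.of false) = tQ := by
  simp [piJJ]

lemma piJJ_true (x0 : ℕ → Bool) : piJJ x0 (FreeGroup.of true) = aQ x0 := by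
  simp [piJJ]

lemma pr_t (f : ℕ → ℕ) (hf : Primrec f) :
    Primrec fun t : TT => ((t.1, t.2.1, f t.2.2.1, t.2.2.2) : TT) :=
  Primrec.fst.pair ((Primrec.fst.comp Primrec.snd).pair
    ((hf.comp (Primrec.fst.comp (Primrec.snd.comp Primrec.snd))).pair
      (Primrec.snd.comp (Primrec.snd.comp Primrec.snd))))

lemma rep_t : Rep fun x0 => pi1 x0 (FreeGroup.of false) := by
  refine rep_of _ (fun d => (d.1, d.2.1, d.2.2.1 - 1, d.2.2.2))
    (fun d => (d.1, d.2.1, d.2.2.1 - 1, d.2.2.2))
    ?_ (fun t => (t.1, t.2.1, zpred t.2.2.1, t.2.2.2)) (fun t => (t.1, t.2.1, zpred t.2.2.1, t.2.2.2))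
    (pr_t _ pr_zpred) (pr_t _ pr_zpred) ?_ ?_
  · intro x0 d
    rw [ite_self]
    have : (pi1 x0) (FreeGroup.of false) = Equiv.prodCongr (Equiv.refl _) (piJJ x0 (FreeGroup.of false)) :=
      rfl
    rw [this, piJJ_false]
    rfl
  · intro d
    simp only [cd, ic_pred]
  · intro d
    simp only [cd, ic_pred]

lemma rep_t' : Rep fun x0 => (pi1 x0 (FreeGroup.of false))⁻¹ := by
  refine rep_of _ (fun d => (d.1, d.2.1, d.2.2.1 + 1, d.2.2.2))
    (fun d => (d.1, d.2.1, d.2.2.1 + 1, d.2.2.2))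
    ?_ (fun t => (t.1, t.2.1, zsucc t.2.2.1, t.2.2.2)) (fun t => (t.1, t.2.1, zsucc t.2.2.1, t.2.2.2))
    (pr_t _ pr_zsucc) (pr_t _ pr_zsucc) ?_ ?_
  · intro x0 d
    rw [ite_self, inv_inv]
    have : (pi1 x0) (FreeGroup.of false) = Equiv.prodCongr (Equiv.refl _) (piJJ x0 (FreeGroup.of false)) :=
      rfl
    rw [this, piJJ_false]
    rfl
  · intro d
    simp only [cd, ic_succ]
  · intro d
    simp only [cd, ic_succ]

lemma pi1_true (x0 : ℕ → Bool) : (pi1 x0) (FreeGroup.of true) =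
    Equiv.prodCongr (Equiv.refl _) (aQ x0) := by
  have : (pi1 x0) (FreeGroup.of true) = Equiv.prodCongr (Equiv.refl _) (piJJ x0 (FreeGroup.of true)) :=
    rfl
  rw [this, piJJ_true]

lemma pi1_true_inv (x0 : ℕ → Bool) : ((pi1 x0) (FreeGroup.of true))⁻¹ =
    (pi1 x0) (FreeGroup.of true) := by
  rw [pi1_true]
  rfl

lemma rep_a : Rep fun x0 => pi1 x0 (FreeGroup.of true) := by
  have hn : Primrec fun t : TT => t.2.1 := Primrec.fst.comp Primrec.snd
  have hi : Primrec fun t : TT => t.2.2.1 := Primrec.fst.comp (Primrec.snd.comp Primrec.snd)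
  have hy : Primrec fun t : TT => t.2.2.2 := Primrec.snd.comp (Primrec.snd.comp Primrec.snd)
  refine rep_of _ (fun d => (d.1, d.2.1, d.2.2.1, if d.2.2.1 = 0 then -d.2.2.2 else
      if d.2.2.1 = (d.2.1 : ℤ) + 1 then 1 - d.2.2.2 else d.2.2.2))
    (fun d => (d.1, d.2.1, d.2.2.1, if d.2.2.1 = 0 then -d.2.2.2 else d.2.2.2))
    ?_
    (fun t => (t.1, t.2.1, t.2.2.1, if t.2.2.1 = 0 then zneg t.2.2.2 else
      if t.2.2.1 = 2 * (t.2.1 + 1) then zsucc (zneg t.2.2.2) else t.2.2.2))
    (fun t => (t.1, t.2.1, t.2.2.1, if t.2.2.1 = 0 then zneg t.2.2.2 else t.2.2.2))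
    ?_ ?_ ?_ ?_
  · intro x0 d
    rw [pi1_true_inv, pi1_true]
    change (d.1, aF x0 d.2) = _
    unfold aF
    obtain ⟨u, n, i, y⟩ := d
    simp only
    by_cases hx : x0 n = true
    · rw [if_pos hx]
      simp only [hx, and_true]
    · rw [if_neg hx]
      rw [Bool.not_eq_true] at hx
      simp [hx]
  · refine Primrec.fst.pair (hn.pair (hi.pair ?_))
    refine Primrec.ite (Primrec.eq.comp hi (Primrec.const 0)) (pr_zneg.comp hy) ?_
    refine Primrec.ite (Primrec.eq.comp hi (Primrec.nat_mul.comp (Primrec.const 2)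
      (Primrec.nat_add.comp hn (Primrec.const 1)))) (pr_zsucc.comp (pr_zneg.comp hy)) hy
  · refine Primrec.fst.pair (hn.pair (hi.pair ?_))
    exact Primrec.ite (Primrec.eq.comp hi (Primrec.const 0)) (pr_zneg.comp hy) hy
  · rintro ⟨u, n, i, y⟩
    simp only [cd, Prod.mk.injEq, true_and]
    simp only [ic_eq_zero, ic_eq]
    split_ifs
    · exact ic_neg y
    · exact ic_one_sub y
    · rfl
  · rintro ⟨u, n, i, y⟩
    simp only [cd, Prod.mk.injEq, true_and]
    simp only [ic_eq_zero]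
    split_ifs
    · exact ic_neg y
    · rfl

theorem t_COD : S_COD := by
  refine ⟨ee, ee_inj, fun d => ⟨code d, ee_code d⟩, ?_, ?_⟩
  · intro s
    exact aut_of_rep (fun _ => rho1 (FreeGroup.of s)) (rep_rho s) (rep_rho' s)
  · intro s
    cases s
    · exact aut_of_rep (fun x0 => pi1 x0 (FreeGroup.of false)) rep_t rep_t'
    · refine aut_of_rep (fun x0 => pi1 x0 (FreeGroup.of true)) rep_a ?_
      have h : (fun x0 => (pi1 x0 (FreeGroup.of true))⁻¹) = fun x0 => pi1 x0 (FreeGroup.of true) :=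
        funext fun x0 => pi1_true_inv x0
      rw [h]
      exact rep_a

end H12.ES
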